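import Pool.Agent.ZPU.Stmts

set_option autoImplicit false

namespace Pool.Agent.Helper92_ZPU

open Polynomial Pool.Agent.ZPT Pool.Agent.ZP3 Pool.Agent.ZPU

theorem norm_p_lt {p : ℕ} (hp : p.Prime) {K : Type} [NormedField K] [CharZero K]
    (hE : Ext p K) : ‖(p : K)‖ < 1 := by
  have : Fact p.Prime := ⟨hp⟩
  have h1 := hE (p : ℚ)
  rw [Rat.cast_natCast, padicNorm.padicNorm_p_of_prime] at h1
  rw [h1]
  push_cast
  exact inv_lt_one_of_one_lt₀ (by exact_mod_cast hp.one_lt)

theorem sub_le_max {K : Type} [NormedField K] [IsUltrametricDist K] (x y : K) :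
    ‖x - y‖ ≤ max ‖x‖ ‖y‖ := by
  rw [sub_eq_add_neg, ← norm_neg y]
  exact IsUltrametricDist.norm_add_le_max _ _

theorem root_step {p : ℕ} (hp : p.Prime) {K : Type} [NormedField K] [CharZero K]
    [IsUltrametricDist K] (hE : Ext p K) {y : K} (hy : ‖y‖ ≤ 1) (h : ‖y ^ p - 1‖ < 1) :
    ‖y - 1‖ < 1 := by
  have hx : ‖y - 1‖ ≤ 1 := by
    refine (sub_le_max _ _).trans (max_le hy ?_)
    simp
  obtain ⟨r, hr⟩ := exists_add_pow_prime_eq hp (⟨y - 1, hx⟩ : OO K) (1 : OO K)
  have hr' := congrArg (fun z : OO K => (z : K)) hr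
  simp only [Subring.coe_pow, Subring.coe_add, Subring.coe_mul, Subring.coe_one,
    Subring.coe_natCast, one_pow, sub_add_cancel] at hr'
  have hpr : ‖(p : K) * ((y - 1) * (r : K))‖ < 1 := by
    rw [norm_mul, norm_mul]
    have h1 : ‖(r : K)‖ ≤ 1 := r.2
    have h2 := norm_p_lt hp hE
    have h3 : ‖y - 1‖ * ‖(r : K)‖ ≤ 1 := mul_le_one₀ hx (norm_nonneg _) h1
    calc ‖(p : K)‖ * (‖y - 1‖ * ‖(r : K)‖) ≤ ‖(p : K)‖ * 1 :=
          mul_le_mul_of_nonneg_left h3 (norm_nonneg _)
      _ < 1 := by rw [mul_one]; exact h2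
  have h3 : (y - 1) ^ p = (y ^ p - 1) - (p : K) * ((y - 1) * (r : K)) := by
    rw [hr']
    ring
  have h4 : ‖(y - 1) ^ p‖ < 1 := by
    rw [h3]
    exact lt_of_le_of_lt (sub_le_max _ _) (max_lt h hpr)
  rw [norm_pow] at h4
  by_contra hcon
  exact absurd (one_le_pow₀ (not_lt.mp hcon)) (not_le.mpr h4)

theorem root_pow {p : ℕ} (hp : p.Prime) {K : Type} [NormedField K] [CharZero K]
    [IsUltrametricDist K] (hE : Ext p K) : ∀ (a : ℕ) {y : K}, ‖y‖ ≤ 1 →
    ‖y ^ (p ^ a) - 1‖ < 1 → ‖y - 1‖ < 1 := by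
  intro a
  induction a with
  | zero =>
    intro y _ h
    simpa using h
  | succ a ih =>
    intro y hy h
    refine root_step hp hE hy (ih ?_ ?_)
    · rw [norm_pow]
      exact pow_le_one₀ (norm_nonneg _) hy
    · rw [← pow_mul]
      rw [pow_succ'] at h
      exact h

theorem one_le_msprod (s : Multiset ℝ) (h : ∀ a ∈ s, 1 ≤ a) : 1 ≤ s.prod := by
  induction s using Multiset.induction with
  | empty => simp
  | cons a s ih =>
    rw [Multiset.prod_cons]
    have h1 := h a (Multiset.mem_cons_self a s)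
    have h2 := ih (fun b hb => h b (Multiset.mem_cons_of_mem hb))
    exact one_le_mul_of_one_le_of_one_le h1 h2

theorem tei (hfo : ZPT.FOStmt) : TEIStmt := by
  intro p hp K _ _ _ _ hE ι t ht
  rcases lt_or_eq_of_le ht with hlt | heq
  · refine ⟨0, ⟨1, le_rfl, ?_⟩, ?_⟩
    · rw [pow_one]
      exact zero_pow hp.ne_zero
    · rw [sub_zero]
      exact hlt
  · obtain ⟨e, he1, he⟩ := hfo p hp K hE ι t heq
    obtain ⟨a, e', hpe, hee⟩ := Nat.exists_eq_pow_mul_and_not_dvd (by omega : e ≠ 0) p hp.ne_one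
    have he'0 : 0 < e' := by
      rcases Nat.eq_zero_or_pos e' with h0 | h0
      · rw [h0, mul_zero] at hee
        omega
      · exact h0
    have h1 : ‖(ι t) ^ e' - 1‖ < 1 := by
      refine root_pow hp hE a ?_ ?_
      · rw [norm_pow, heq, one_pow]
      · rw [← pow_mul, mul_comm e', ← hee]
        exact he
    obtain ⟨P, hP⟩ : ∃ P : K[X], P = X ^ e' - 1 := ⟨_, rfl⟩
    have hmon : P.Monic := by
      rw [hP]
      exact monic_X_pow_sub_C 1 he'0.ne'
    have hprod := (IsAlgClosed.splits P).eq_prod_roots_of_monic hmon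
    have hev : (ι t) ^ e' - 1 = ((P.roots.map (fun a => ι t - a))).prod := by
      have h2 : P.eval (ι t) = (ι t) ^ e' - 1 := by
        rw [hP]
        simp
      rw [← h2]
      conv_lhs => rw [hprod]
      rw [eval_multiset_prod, Multiset.map_map]
      refine congrArg Multiset.prod (Multiset.map_congr rfl fun a _ => ?_)
      simp
    have hex : ∃ z ∈ P.roots, ‖ι t - z‖ < 1 := by
      by_contra hcon
      have h3 : ∀ z ∈ P.roots, 1 ≤ ‖ι t - z‖ := by
        intro z hz
        by_contra h4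
        exact hcon ⟨z, hz, not_le.mp h4⟩
      have h5 : ‖(ι t) ^ e' - 1‖ = ((P.roots.map (fun a => ‖ι t - a‖))).prod := by
        rw [hev]
        have h6 := map_multiset_prod (normHom (α := K)) (P.roots.map (fun a => ι t - a))
        rw [Multiset.map_map] at h6
        exact h6
      have h7 : 1 ≤ ((P.roots.map (fun a => ‖ι t - a‖))).prod := by
        refine one_le_msprod _ fun b hb => ?_
        obtain ⟨z, hz, rfl⟩ := Multiset.mem_map.mp hb
        exact h3 z hz
      rw [← h5] at h7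
      exact absurd h1 (not_lt.mpr h7)
    obtain ⟨z, hz, hz1⟩ := hex
    refine ⟨z, ?_, hz1⟩
    have hze : z ^ e' = 1 := by
      have h2 := (mem_roots hmon.ne_zero).mp hz
      rw [IsRoot.def, hP] at h2
      simp only [eval_sub, eval_pow, eval_X, eval_one] at h2
      exact sub_eq_zero.mp h2
    refine ⟨Nat.totient e', Nat.totient_pos.mpr he'0, ?_⟩
    have hcop : Nat.Coprime p e' := (Nat.Prime.coprime_iff_not_dvd hp).mpr hpe
    have h8 := Nat.ModEq.pow_totient hcop
    calc z ^ (p ^ Nat.totient e') = z ^ 1 := pow_eq_pow_of_modEq h8 hze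
      _ = z := pow_one z

end Pool.Agent.Helper92_ZPU
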